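import Pool.Agent.P8H48.Apn2

/-!
# The ortho-derivative of a quadratic APN function has nonzero nonlinearity for `n ≥ 4`

All definitions are in `Pool.Agent.P8H48.Apn`: `V n = F_2^n`; `IsAPN F`; `algDegree F` (the least
`d` such that every coordinate function of `F` is given by a polynomial of total degree at most
`d`) and `IsQuadratic F` (`algDegree F = 2`); `IsOrthoDerivative F π` (`π 0 = 0` and for `a ≠ 0`
the vector `π a` is nonzero and orthogonal to all `D_a F(x) + D_a F(0)`); `nonlinearity`.

Proof for `n ≥ 4`. Let `B(x, y) = F(x+y) + F(x) + F(y) + F(0)`, which is bi-additive. Suppose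
`b · π x = c · x` for all `x`, `b ≠ 0`, and let `H` be the set of the `x` with `c · x = 0`. For
`x ≠ 0` in `H` the vector `b` is in the hyperplane orthogonal to `π x`, which is the image of
`B(x, .)`; so there is `y` with `B(x, y) = b`, unique up to adding `x`, and `y` is in `H`. So the
nonzero elements of `H` are split into triples `{x, y, x + y}` with
`F(x) + F(y) + F(x + y) + F(0) = b`; the number of triples is odd as `|H|` is even. Hence the sum of
the values of `F` over `H` is `b`. But this sum is `0`, as `F` has degree `2` and `H` has dimension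
at least `n - 1 ≥ 3`.
-/

set_option autoImplicit false

namespace Pool.Agent.Results.MP_4cfb12_co.OrthoDerivative

open Pool.Agent.P8H48.Apn

/-- (1) Every quadratic APN function `F` on `F_2^n` has a unique ortho-derivative `π_F`.
(2) For `n ≥ 4` no quadratic APN function on `F_2^n` satisfies `NL(π_F) = 0`.
(3) For `n = 3` every quadratic APN function satisfies `NL(π_F) = 0`, and (4) there is one.
So a quadratic APN function on `F_2^n`, `n ≥ 3`, with `NL(π_F) = 0` exists if and only if
`n = 3`. -/
theorem result :
    (∀ (n : ℕ) (F : V n → V n), IsQuadratic F → IsAPN F → ∃! π, IsOrthoDerivative F π) ∧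
    (∀ n : ℕ, 4 ≤ n → ∀ F π : V n → V n, IsQuadratic F → IsAPN F → IsOrthoDerivative F π →
      0 < nonlinearity π) ∧
    (∀ F π : V 3 → V 3, IsQuadratic F → IsAPN F → IsOrthoDerivative F π →
      nonlinearity π = 0) ∧
    (∃ F : V 3 → V 3, IsQuadratic F ∧ IsAPN F) :=
  ⟨fun _ _ hF hA => exists_unique hF.degreeLE hA,
    fun _ hn _ _ hF hA hπ => ge_four hn hF.degreeLE hA hπ,
    fun _ _ hF hA hπ => three hF.degreeLE hA hπ,
    ⟨F3, F3_quadratic, F3_apn⟩⟩

end Pool.Agent.Results.MP_4cfb12_co.OrthoDerivative
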